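import Pool.Agent.Helper28.ND.Spec

/-!
# Swarm ND, part FUND: the fundamental lemma with periodic test functions
-/

set_option autoImplicit false

namespace Pool.Agent.Helper4.ND.FUND

open Pool.Agent.Helper28.ND
open MeasureTheory Set Filter Topology
open scoped ENNReal NNReal ContDiff

/-- the open cube -/
def Qo (d : ℕ) : Set (Fin d → ℝ) := Set.pi Set.univ (fun _ => Set.Ioo (0 : ℝ) 1)

/-- periodic extension -/
noncomputable def pext {d : ℕ} (φ : ℝ × (Fin d → ℝ) → ℝ) (t : ℝ) (x : Fin d → ℝ) : ℝ :=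
  φ (t, fun i => Int.fract (x i))

theorem away {K : Set ℝ} (hK : IsCompact K) {a b : ℝ} (h : K ⊆ Ioo a b) :
    ∃ e, 0 < e ∧ K ⊆ Icc (a + e) (b - e) := by
  rcases K.eq_empty_or_nonempty with rfl | hne
  · exact ⟨1, one_pos, empty_subset _⟩
  obtain ⟨m, hm, hmin⟩ := hK.exists_isMinOn hne continuous_id.continuousOn
  obtain ⟨M, hM, hmax⟩ := hK.exists_isMaxOn hne continuous_id.continuousOn
  have h1 := h hm
  have h2 := h hM
  refine ⟨min (m - a) (b - M), lt_min (by linarith [h1.1]) (by linarith [h2.2]), ?_⟩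
  intro x hx
  have h3 : m ≤ x := hmin hx
  have h4 : x ≤ M := hmax hx
  constructor
  · have := min_le_left (m - a) (b - M)
    linarith
  · have := min_le_right (m - a) (b - M)
    linarith

theorem pext_smooth {d : ℕ} {T : ℝ} {φ : ℝ × (Fin d → ℝ) → ℝ} (hφ : ContDiff ℝ ∞ φ)
    (hc : HasCompactSupport φ) (hs : tsupport φ ⊆ Ioo 0 T ×ˢ Qo d) :
    ContDiff ℝ (⊤ : ℕ∞) (U (pext φ)) := by
  rw [contDiff_iff_contDiffAt]
  rintro ⟨t0, x0⟩
  by_cases hA : ∀ i, Int.fract (x0 i) ≠ 0
  · -- locally a translate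
    have h1 : ∀ᶠ z : ℝ × (Fin d → ℝ) in 𝓝 (t0, x0), ∀ i, ⌊z.2 i⌋ = ⌊x0 i⌋ := by
      rw [Filter.eventually_all]
      intro i
      have h2 : Ioo (⌊x0 i⌋ : ℝ) (⌊x0 i⌋ + 1) ∈ 𝓝 (x0 i) := by
        apply Ioo_mem_nhds
        · have := Int.fract_nonneg (x0 i)
          have h3 : 0 < Int.fract (x0 i) := lt_of_le_of_ne this (Ne.symm (hA i))
          rw [← Int.self_sub_floor] at h3
          linarith
        · exact Int.lt_floor_add_one _
      have h4 : Tendsto (fun z : ℝ × (Fin d → ℝ) => z.2 i) (𝓝 (t0, x0)) (𝓝 (x0 i)) :=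
        ((continuous_apply i).comp continuous_snd).continuousAt
      filter_upwards [h4 h2] with z hz
      rw [Int.floor_eq_iff]
      exact ⟨hz.1.le, hz.2⟩
    have h2 : U (pext φ) =ᶠ[𝓝 (t0, x0)]
        fun z => φ (z.1, fun i => z.2 i - (⌊x0 i⌋ : ℝ)) := by
      filter_upwards [h1] with z hz
      simp only [U, pext]
      congr 2
      funext i
      rw [← Int.self_sub_floor, hz i]
    refine ContDiffAt.congr_of_eventuallyEq ?_ h2
    apply ContDiff.contDiffAt
    apply hφ.comp
    fun_prop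
  · push Not at hA
    obtain ⟨i, hi⟩ := hA
    have hKi : IsCompact ((fun z : ℝ × (Fin d → ℝ) => z.2 i) '' tsupport φ) :=
      hc.isCompact.image (by fun_prop)
    have hKs : (fun z : ℝ × (Fin d → ℝ) => z.2 i) '' tsupport φ ⊆ Ioo 0 1 := by
      rintro _ ⟨z, hz, rfl⟩
      exact (hs hz).2 i (mem_univ i)
    obtain ⟨e, he, hK⟩ := away hKi hKs
    have hfl : (⌊x0 i⌋ : ℝ) = x0 i := by
      rw [← Int.self_sub_floor] at hi
      linarith
    have h2 : U (pext φ) =ᶠ[𝓝 (t0, x0)] fun _ => 0 := by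
      have h4 : Tendsto (fun z : ℝ × (Fin d → ℝ) => z.2 i) (𝓝 (t0, x0)) (𝓝 (x0 i)) :=
        ((continuous_apply i).comp continuous_snd).continuousAt
      have h5 : Ioo (x0 i - min e 1) (x0 i + min e 1) ∈ 𝓝 (x0 i) :=
        Ioo_mem_nhds (by have : 0 < min e 1 := lt_min he one_pos; linarith)
          (by have : 0 < min e 1 := lt_min he one_pos; linarith)
      filter_upwards [h4 h5] with z hz
      simp only [U, pext]
      by_contra hne
      have h6 : (z.1, fun j => Int.fract (z.2 j)) ∈ tsupport φ := subset_closure hne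
      have h7 := hK ⟨_, h6, rfl⟩
      simp only [zero_add] at h7
      have hm1 := min_le_left e 1
      have hm2 := min_le_right e 1
      rcases le_or_gt (x0 i) (z.2 i) with h8 | h8
      · have h9 : ⌊z.2 i⌋ = ⌊x0 i⌋ := by
          rw [Int.floor_eq_iff, hfl]
          exact ⟨h8, by linarith [hz.2]⟩
        rw [← Int.self_sub_floor, h9, hfl] at h7
        linarith [h7.1, hz.2]
      · have h9 : ⌊z.2 i⌋ = ⌊x0 i⌋ - 1 := by
          rw [Int.floor_eq_iff]
          push_cast
          rw [hfl]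
          exact ⟨by linarith [hz.1], by linarith⟩
        rw [← Int.self_sub_floor, h9] at h7
        push_cast at h7
        rw [hfl] at h7
        linarith [h7.2, hz.1]
    exact contDiffAt_const.congr_of_eventuallyEq h2

theorem pext_test {d : ℕ} {T : ℝ} {φ : ℝ × (Fin d → ℝ) → ℝ} (hφ : ContDiff ℝ ∞ φ)
    (hc : HasCompactSupport φ) (hs : tsupport φ ⊆ Ioo 0 T ×ˢ Qo d) : IsTest0 T (pext φ) := by
  refine ⟨⟨pext_smooth hφ hc hs, ?_⟩, ?_⟩
  · intro t x k
    simp only [pext]
    congr 2
    funext i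
    exact Int.fract_add_intCast _ _
  · have hK : IsCompact (Prod.fst '' tsupport φ) := hc.isCompact.image continuous_fst
    have hKs : Prod.fst '' tsupport φ ⊆ Ioo 0 T := by
      rintro _ ⟨z, hz, rfl⟩
      exact (hs hz).1
    obtain ⟨e, he, h⟩ := away hK hKs
    refine ⟨e / 2, by linarith, ?_⟩
    intro t ht x
    simp only [pext]
    by_contra hne
    have h6 : (t, fun j => Int.fract (x j)) ∈ tsupport φ := subset_closure hne
    have h7 := h ⟨_, h6, rfl⟩
    simp only [zero_add, mem_Icc] at h7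
    rcases ht with h8 | h8
    · linarith [h7.1]
    · linarith [h7.2]

theorem Q_ae_eq (d : ℕ) : (volume.restrict (Q d) : Measure (Fin d → ℝ)) =
    volume.restrict (Qo d) := by
  unfold Q Qo
  rw [volume_pi, Measure.restrict_pi_pi, Measure.restrict_pi_pi]
  congr 1
  funext i
  exact (restrict_Ioo_eq_restrict_Ioc).symm

theorem measurableSet_Qo (d : ℕ) : MeasurableSet (Qo d) :=
  MeasurableSet.univ_pi fun _ => measurableSet_Ioo

theorem main : S_FUND := by
  intro d T g hT hg hint h
  simp only [Q_ae_eq] at hint h ⊢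
  set μ : Measure (ℝ × (Fin d → ℝ)) := (volume.restrict (Ioo 0 T)).prod (volume.restrict (Qo d))
    with hμ
  have hμr : μ = volume.restrict (Ioo 0 T ×ˢ Qo d) := by
    rw [hμ, Measure.prod_restrict]
    rfl
  have hI : Integrable (U g) μ := by
    refine ⟨hg.aestronglyMeasurable, ?_⟩
    unfold HasFiniteIntegral
    rw [hμ, lintegral_prod _ hg.enorm.aemeasurable]
    exact hint
  have hopen : IsOpen (Ioo 0 T ×ˢ Qo d : Set (ℝ × (Fin d → ℝ))) :=
    isOpen_Ioo.prod (isOpen_set_pi finite_univ fun _ _ => isOpen_Ioo)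
  have hloc : LocallyIntegrableOn (U g) (Ioo 0 T ×ˢ Qo d) volume := by
    apply IntegrableOn.locallyIntegrableOn
    rw [IntegrableOn, ← hμr]
    exact hI
  have hae : ∀ᵐ z ∂(volume : Measure (ℝ × (Fin d → ℝ))), z ∈ (Ioo 0 T ×ˢ Qo d) → U g z = 0 := by
    apply IsOpen.ae_eq_zero_of_integral_contDiff_smul_eq_zero hopen hloc
    intro φ hφ hc hs
    have h1 := h _ (pext_test hφ hc hs)
    obtain ⟨B, hB⟩ := hc.exists_bound_of_continuous hφ.continuous
    have h2 : ∫ z, φ z • U g z = ∫ z in Ioo 0 T ×ˢ Qo d, φ z • U g z := by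
      symm
      apply setIntegral_eq_integral_of_forall_compl_eq_zero
      intro z hz
      have : φ z = 0 := by
        by_contra hne
        exact hz (hs (subset_closure hne))
      rw [this, zero_smul]
    have hI2 : Integrable (fun z => φ z • U g z) μ := by
      simp only [smul_eq_mul]
      exact hI.bdd_mul (c := B) hφ.continuous.aestronglyMeasurable
        (Eventually.of_forall fun z => hB z)
    rw [h2, ← hμr, hμ, integral_prod _ hI2]
    refine Eq.trans ?_ h1
    refine integral_congr_ae (Eventually.of_forall fun t => ?_)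
    refine setIntegral_congr_fun (measurableSet_Qo d) fun x hx => ?_
    simp only [smul_eq_mul, U, pext]
    rw [mul_comm]
    congr 2
    refine Prod.ext rfl ?_
    funext i
    have := hx i (mem_univ i)
    exact (Int.fract_eq_self.mpr ⟨this.1.le, this.2⟩).symm
  have hae2 : ∀ᵐ z ∂μ, U g z = 0 := by
    rw [hμr, ae_restrict_iff' hopen.measurableSet]
    exact hae
  exact Measure.ae_ae_of_ae_prod hae2

end Pool.Agent.Helper4.ND.FUND
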