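import Pool.Agent.Helper28.ND.Spec

/-!
# Swarm ND, part PRJ: Fubini for functions of the first two coordinates
-/

set_option autoImplicit false

namespace Pool.Agent.Helper4.ND.PRJ

open Pool.Agent.Helper28.ND
open MeasureTheory Set Filter Topology
open scoped ENNReal NNReal

theorem mp1 {d : ℕ} (hd : 2 ≤ d) :
    MeasurePreserving (fun x : Fin d → ℝ => (x (i0 hd), x (i1 hd))) (volume.restrict (Q d))
      ((volume.restrict (Ioc (0 : ℝ) 1)).prod (volume.restrict (Ioc (0 : ℝ) 1))) := by
  have hQ : (volume.restrict (Q d) : Measure (Fin d → ℝ)) =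
      Measure.pi (fun _ => volume.restrict (Ioc (0 : ℝ) 1)) := by
    unfold Q
    rw [volume_pi, Measure.restrict_pi_pi]
  have hprob : (volume.restrict (Ioc (0 : ℝ) 1)) Set.univ = 1 := by
    rw [Measure.restrict_apply MeasurableSet.univ, univ_inter, Real.volume_Ioc]
    simp
  have hmeas : Measurable (fun x : Fin d → ℝ => (x (i0 hd), x (i1 hd))) := by fun_prop
  refine ⟨hmeas, ?_⟩
  symm
  apply Measure.prod_eq
  intro s t hs ht
  rw [Measure.map_apply hmeas (hs.prod ht), hQ]
  classical
  have hne : i0 hd ≠ i1 hd := by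
    intro h
    have := congrArg Fin.val h
    simp [i0, i1] at this
  have hset : (fun x : Fin d → ℝ => (x (i0 hd), x (i1 hd))) ⁻¹' s ×ˢ t =
      Set.pi univ (fun i => if i = i0 hd then s else if i = i1 hd then t else univ) := by
    ext x
    simp only [mem_preimage, mem_prod, Set.mem_pi, mem_univ, true_implies]
    constructor
    · intro h i
      split_ifs with h1 h2
      · rw [h1]; exact h.1
      · rw [h2]; exact h.2
      · trivial
    · intro h
      refine ⟨?_, ?_⟩
      · have := h (i0 hd)
        rwa [if_pos rfl] at this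
      · have := h (i1 hd)
        rwa [if_neg (Ne.symm hne), if_pos rfl] at this
  rw [hset, Measure.pi_pi, ← Finset.mul_prod_erase _ _ (Finset.mem_univ (i0 hd)),
    ← Finset.mul_prod_erase _ _ (Finset.mem_erase.mpr ⟨Ne.symm hne, Finset.mem_univ (i1 hd)⟩)]
  rw [if_pos rfl, if_neg (Ne.symm hne), if_pos rfl]
  have hrest : ∏ i ∈ ((Finset.univ : Finset (Fin d)).erase (i0 hd)).erase (i1 hd),
      (volume.restrict (Ioc (0 : ℝ) 1))
        (if i = i0 hd then s else if i = i1 hd then t else univ) = 1 := by
    apply Finset.prod_eq_one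
    intro i hi
    rw [Finset.mem_erase, Finset.mem_erase] at hi
    rw [if_neg hi.2.1, if_neg hi.1, hprob]
  rw [hrest, mul_one]

theorem main : S_PRJ := by
  intro d hd F hF
  have h2 : MeasurePreserving (Complex.measurableEquivRealProd.symm)
      ((volume.restrict (Ioc (0 : ℝ) 1)).prod (volume.restrict (Ioc (0 : ℝ) 1)))
      (volume.restrict Sq) := by
    have h3 := Complex.volume_preserving_equiv_real_prod.symm
    have hSqm : MeasurableSet Sq := by
      have : Sq = Complex.re ⁻¹' (Ioc 0 1) ∩ Complex.im ⁻¹' (Ioc 0 1) := rfl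
      rw [this]
      exact (Complex.measurable_re measurableSet_Ioc).inter
        (Complex.measurable_im measurableSet_Ioc)
    have h4 := h3.restrict_preimage hSqm
    have h5 : (Complex.measurableEquivRealProd.symm ⁻¹' Sq) =
        (Ioc (0 : ℝ) 1) ×ˢ (Ioc (0 : ℝ) 1) := by
      ext p
      simp [Sq, Complex.measurableEquivRealProd_symm_apply]
    rw [h5] at h4
    rw [Measure.prod_restrict]
    exact h4
  have h := (h2.comp (mp1 hd)).lintegral_comp hF
  rw [← h]
  refine lintegral_congr fun x => ?_
  congr 1

end Pool.Agent.Helper4.ND.PRJ
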