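import Pool.Agent.Helper28.ND.Spec

/-!
# Swarm ND, part STEIN: Gaussian integration by parts
-/

set_option autoImplicit false

namespace Pool.Agent.Helper4.ND.STEIN

open Pool.Agent.Helper28.ND
open MeasureTheory Set Filter Topology ProbabilityTheory
open scoped ENNReal NNReal

theorem pdf_eq : gaussianPDFReal 0 1 = fun x : ℝ =>
    (Real.sqrt (2 * Real.pi))⁻¹ * Real.exp (-(1 / 2) * x ^ 2) := by
  funext x
  rw [gaussianPDFReal_def]
  simp only [NNReal.coe_one, mul_one, sub_zero]
  congr 2
  ring

theorem one_dim (g g' : ℝ → ℝ) (hg : ∀ x, HasDerivAt g (g' x) x) (hc : Continuous g') (B : ℝ)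
    (h1 : ∀ x, |g x| ≤ B) (h2 : ∀ x, |g' x| ≤ B) :
    ∫ x, x * g x ∂(gaussianReal 0 1) = ∫ x, g' x ∂(gaussianReal 0 1) := by
  have hgc : Continuous g := continuous_iff_continuousAt.mpr fun x => (hg x).continuousAt
  rw [integral_gaussianReal_eq_integral_smul one_ne_zero,
    integral_gaussianReal_eq_integral_smul one_ne_zero]
  simp only [smul_eq_mul]
  have hv : ∀ x, HasDerivAt (gaussianPDFReal 0 1) (-x * gaussianPDFReal 0 1 x) x := by
    intro x
    rw [pdf_eq]
    have h3 : HasDerivAt (fun y : ℝ => -(1 / 2) * y ^ 2) (-x) x := by
      have := (hasDerivAt_pow 2 x).const_mul (-(1 / 2) : ℝ)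
      exact this.congr_deriv (by push_cast; ring)
    have h4 := (h3.exp).const_mul ((Real.sqrt (2 * Real.pi))⁻¹)
    exact h4.congr_deriv (by ring)
  have hint : Integrable (gaussianPDFReal 0 1) := integrable_gaussianPDFReal 0 1
  have hintx : Integrable (fun x : ℝ => x * gaussianPDFReal 0 1 x) := by
    rw [pdf_eq]
    have := (integrable_mul_exp_neg_mul_sq (b := 1 / 2) (by norm_num)).const_mul
      ((Real.sqrt (2 * Real.pi))⁻¹)
    refine this.congr (Eventually.of_forall fun x => ?_)
    simp only
    ring
  have e1 : Integrable (g * fun x => -x * gaussianPDFReal 0 1 x) := by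
    have h5 := hintx.neg.bdd_mul (c := B) hgc.aestronglyMeasurable
      (Eventually.of_forall fun x => by rw [Real.norm_eq_abs]; exact h1 x)
    refine h5.congr (Eventually.of_forall fun x => ?_)
    simp only [Pi.mul_apply, Pi.neg_apply]
    ring
  have e2 : Integrable (g' * gaussianPDFReal 0 1) :=
    hint.bdd_mul (c := B) hc.aestronglyMeasurable
      (Eventually.of_forall fun x => by rw [Real.norm_eq_abs]; exact h2 x)
  have e3 : Integrable (g * gaussianPDFReal 0 1) :=
    hint.bdd_mul (c := B) hgc.aestronglyMeasurable
      (Eventually.of_forall fun x => by rw [Real.norm_eq_abs]; exact h1 x)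
  have key := integral_mul_deriv_eq_deriv_mul_of_integrable (fun x _ => hg x) (fun x _ => hv x)
    e1 e2 e3
  have e4 : ∫ x, gaussianPDFReal 0 1 x * (x * g x) =
      - ∫ x, g x * (-x * gaussianPDFReal 0 1 x) := by
    rw [← integral_neg]
    refine integral_congr_ae (Eventually.of_forall fun x => ?_)
    simp only
    ring
  rw [e4, key, neg_neg]
  refine integral_congr_ae (Eventually.of_forall fun x => ?_)
  simp only
  ring

theorem main : S_STEIN := by
  intro d f hf hB i
  obtain ⟨B, hB⟩ := hB
  cases d with
  | zero => exact i.elim0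
  | succ n =>
    have hfc : Continuous f := hf.continuous
    have hpdc : Continuous (pd i f) := by
      unfold pd
      exact (hf.continuous_fderiv one_ne_zero).clm_apply continuous_const
    have hpdB : ∀ z, |pd i f z| ≤ B := by
      intro z
      unfold pd
      have h1 := (fderiv ℝ f z).le_opNorm (Pi.single i 1)
      have h2 : ‖(Pi.single i (1 : ℝ) : Fin (n + 1) → ℝ)‖ = 1 := by
        rw [Pi.norm_single]; simp
      rw [h2, mul_one] at h1
      exact h1.trans (hB z).2
    have hBnn : 0 ≤ B := (abs_nonneg _).trans (hB 0).1
    have hmpe : MeasurePreserving (Function.eval i) (gam (n + 1)) (gaussianReal 0 1) := by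
      unfold gam
      exact measurePreserving_eval (fun _ : Fin (n + 1) => gaussianReal 0 1) i
    have hidint : Integrable (fun x : ℝ => x) (gaussianReal 0 1) := by
      exact (memLp_id_gaussianReal 1).integrable le_rfl
    have hint1 : Integrable (fun z : Fin (n + 1) → ℝ => z i * f z) (gam (n + 1)) := by
      have h1 : Integrable (fun z : Fin (n + 1) → ℝ => z i) (gam (n + 1)) :=
        hmpe.integrable_comp_of_integrable hidint
      have h2 := h1.bdd_mul (c := B) hfc.aestronglyMeasurable
        (Eventually.of_forall fun x => by rw [Real.norm_eq_abs]; exact (hB x).1)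
      refine h2.congr (Eventually.of_forall fun x => ?_)
      simp only
      ring
    have hint2 : Integrable (pd i f) (gam (n + 1)) := by
      have : IsProbabilityMeasure (gam (n + 1)) := by unfold gam; infer_instance
      exact Integrable.of_bound hpdc.aestronglyMeasurable B
        (Eventually.of_forall fun x => by rw [Real.norm_eq_abs]; exact hpdB x)
    have hprob : IsProbabilityMeasure (gam n) := by unfold gam; infer_instance
    have hmp : MeasurePreserving (MeasurableEquiv.piFinSuccAbove (fun _ => ℝ) i).symm
        ((gaussianReal 0 1).prod (gam n)) (gam (n + 1)) := by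
      unfold gam
      exact (measurePreserving_piFinSuccAbove (fun _ : Fin (n + 1) => gaussianReal 0 1) i).symm
    rw [← hmp.integral_comp', ← hmp.integral_comp']
    have hI1 : Integrable (fun w : ℝ × (Fin n → ℝ) =>
        (MeasurableEquiv.piFinSuccAbove (fun _ => ℝ) i).symm w i *
          f ((MeasurableEquiv.piFinSuccAbove (fun _ => ℝ) i).symm w))
        ((gaussianReal 0 1).prod (gam n)) := hmp.integrable_comp_of_integrable hint1
    have hI2 : Integrable (fun w : ℝ × (Fin n → ℝ) =>
        pd i f ((MeasurableEquiv.piFinSuccAbove (fun _ => ℝ) i).symm w))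
        ((gaussianReal 0 1).prod (gam n)) := hmp.integrable_comp_of_integrable hint2
    rw [integral_prod_symm _ hI1, integral_prod_symm _ hI2]
    refine integral_congr_ae (Eventually.of_forall fun y => ?_)
    simp only
    have hins : ∀ x : ℝ, (MeasurableEquiv.piFinSuccAbove (fun _ => ℝ) i).symm (x, y) =
        i.insertNth x y := fun x => rfl
    have key := one_dim (fun x => f (i.insertNth x y)) (fun x => pd i f (i.insertNth x y))
      (fun x => ?_) ?_ B (fun x => (hB _).1) (fun x => hpdB _)
    · have h3 : ∀ x : ℝ, (i.insertNth x y : Fin (n + 1) → ℝ) i = x := fun x => by simp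
      simp only [hins, h3]
      exact key
    · have h4 : HasDerivAt (fun t : ℝ => (i.insertNth t y : Fin (n + 1) → ℝ)) (Pi.single i 1) x := by
        rw [hasDerivAt_pi]
        intro j
        rcases eq_or_ne j i with rfl | hj
        · simp only [Fin.insertNth_apply_same, Pi.single_eq_same]
          exact hasDerivAt_id x
        · obtain ⟨k, rfl⟩ := Fin.exists_succAbove_eq hj
          simp only [Fin.insertNth_apply_succAbove]
          rw [Pi.single_eq_of_ne hj]
          exact hasDerivAt_const x _
      have h5 := ((hf.differentiable one_ne_zero) (i.insertNth x y)).hasFDerivAt.comp_hasDerivAt x h4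
      exact h5
    · apply hpdc.comp
      apply continuous_pi
      intro j
      rcases eq_or_ne j i with rfl | hj
      · simp only [Fin.insertNth_apply_same]
        exact continuous_id
      · obtain ⟨k, rfl⟩ := Fin.exists_succAbove_eq hj
        simp only [Fin.insertNth_apply_succAbove]
        exact continuous_const

end Pool.Agent.Helper4.ND.STEIN
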