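import Pool.Agent.Helper28.ND.Spec2
import Pool.Agent.H62.ND.Base
import Pool.Agent.Helper75.ND.CUT
import Pool.Agent.Helper89.ND.ENER

/-!
# LIMIT: weak limits of approximate solutions
-/

namespace Pool.Agent.Helper4.ND.LIMIT
open MeasureTheory Set Filter Topology
open Pool.Agent.Helper28.ND Pool.Agent.H62.ND
open scoped ENNReal NNReal

/-- Weak limits along an ultrafilter. -/
theorem weak_limit {X : Type} [MeasurableSpace X] (μ : Measure X) (F : ℕ → X → ℝ)
    (hF : ∀ K, MemLp (F K) 2 μ) (M : ℝ) (hM : ∀ K, ∫ x, F K x ^ 2 ∂μ ≤ M) (𝓕 : Ultrafilter ℕ) :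
    ∃ w : X → ℝ, Measurable w ∧ MemLp w 2 μ ∧ ∀ g : X → ℝ, MemLp g 2 μ →
      Tendsto (fun K => ∫ x, F K x * g x ∂μ) 𝓕 (𝓝 (∫ x, w x * g x ∂μ)) := by
  let H := Lp ℝ 2 μ
  let a : ℕ → H := fun K => (hF K).toLp (F K)
  have hin : ∀ (f g : X → ℝ) (hf : MemLp f 2 μ) (hg : MemLp g 2 μ),
      inner ℝ (hf.toLp f) (hg.toLp g) = ∫ x, f x * g x ∂μ := by
    intro f g hf hg
    rw [L2.inner_def]
    refine integral_congr_ae ?_
    filter_upwards [hf.coeFn_toLp, hg.coeFn_toLp] with x h1 h2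
    rw [h1, h2]
    simp [mul_comm]
  have hnorm : ∀ K, ‖a K‖ ≤ Real.sqrt M := by
    intro K
    refine Real.le_sqrt_of_sq_le ?_
    rw [← real_inner_self_eq_norm_sq, hin]
    refine le_trans (le_of_eq ?_) (hM K)
    refine integral_congr_ae (Eventually.of_forall fun x => ?_)
    simp only
    ring
  let ℓ : ℕ → WeakDual ℝ H := fun K => StrongDual.toWeakDual (InnerProductSpace.toDual ℝ H (a K))
  have hcomp := WeakDual.isCompact_closedBall (0 : StrongDual ℝ H) (Real.sqrt M)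
  obtain ⟨L, _, hL⟩ := hcomp.ultrafilter_le_nhds (𝓕.map ℓ) (by
    rw [le_principal_iff]
    change ℓ ⁻¹' _ ∈ (𝓕 : Filter ℕ)
    refine Filter.univ_mem' fun K => ?_
    change (InnerProductSpace.toDual ℝ H (a K)) ∈ Metric.closedBall (0 : StrongDual ℝ H) _
    rw [mem_closedBall_zero_iff, LinearIsometryEquiv.norm_map]
    exact hnorm K)
  let w : H := (InnerProductSpace.toDual ℝ H).symm (WeakDual.toStrongDual L)
  refine ⟨w, (Lp.stronglyMeasurable w).measurable, Lp.memLp w, ?_⟩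
  intro g hg
  have h1 : Tendsto (fun K => ℓ K (hg.toLp g)) 𝓕 (𝓝 (L (hg.toLp g))) := by
    have hc : Continuous (fun l : WeakDual ℝ H => l (hg.toLp g)) := WeakDual.eval_continuous _
    exact (hc.tendsto L).comp hL
  have h2 : L (hg.toLp g) = ∫ x, w x * g x ∂μ := by
    have h3 : inner ℝ w (hg.toLp g) = L (hg.toLp g) := InnerProductSpace.toDual_symm_apply
    rw [← h3]
    have h4 := hin w g (Lp.memLp w) hg
    rw [Lp.toLp_coeFn] at h4
    exact h4
  rw [← h2]
  refine h1.congr fun K => ?_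
  change inner ℝ (a K) (hg.toLp g) = _
  exact hin (F K) g (hF K) hg

/-- the representative in the cube -/
noncomputable def fr {d : ℕ} (x : Fin d → ℝ) : Fin d → ℝ := fun i => x i - ⌈x i⌉ + 1

theorem fr_meas (d : ℕ) : Measurable (fr : (Fin d → ℝ) → (Fin d → ℝ)) := by
  refine measurable_pi_lambda _ fun i => ?_
  have h1 : Measurable fun x : Fin d → ℝ => x i := measurable_pi_apply i
  have h2 : Measurable fun x : Fin d → ℝ => ((⌈x i⌉ : ℤ) : ℝ) :=
    (measurable_from_top (f := fun n : ℤ => (n : ℝ))).comp (Int.measurable_ceil.comp h1)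
  exact (h1.sub h2).add_const 1

theorem fr_Q {d : ℕ} {x : Fin d → ℝ} (hx : x ∈ Q d) : fr x = x := by
  funext i
  have h1 := hx i trivial
  have h2 : ⌈x i⌉ = 1 := by
    rw [Int.ceil_eq_iff]
    push_cast
    exact ⟨by linarith [h1.1], h1.2⟩
  simp only [fr]
  rw [h2]
  push_cast
  ring

theorem fr_per {d : ℕ} (x : Fin d → ℝ) (k : Fin d → ℤ) : fr (fun i => x i + (k i : ℝ)) = fr x := by
  funext i
  simp only [fr]
  rw [Int.ceil_add_intCast]
  push_cast
  ring

/-- continuous functions are bounded on the cylinder -/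
theorem bdd_cyl {d : ℕ} (T : ℝ) {h : ℝ × (Fin d → ℝ) → ℝ} (hc : Continuous h) :
    ∃ B : ℝ, 0 ≤ B ∧ ∀ z ∈ Ioo 0 T ×ˢ Q d, |h z| ≤ B := by
  have hcomp : IsCompact (Icc (0:ℝ) T ×ˢ Icc (0 : Fin d → ℝ) 1) := isCompact_Icc.prod isCompact_Icc
  obtain ⟨B, hB⟩ := hcomp.exists_bound_of_continuousOn hc.continuousOn
  refine ⟨max B 0, le_max_right _ _, ?_⟩
  rintro ⟨t, x⟩ ⟨ht, hx⟩
  refine (hB (t, x) ⟨⟨ht.1.le, ht.2.le⟩, ?_⟩).trans (le_max_left _ _)
  exact ⟨fun i => (hx i trivial).1.le, fun i => (hx i trivial).2⟩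

theorem young {q a b : ℝ} (hq : 2 ≤ q) (ha : 0 ≤ a) (hb : 0 ≤ b) :
    q * (a * b ^ (q - 1)) ≤ a ^ q + (q - 1) * b ^ q := by
  have hq0 : 0 < q := by linarith
  have hq1 : 0 < q - 1 := by linarith
  have hconj : q.HolderConjugate (q / (q - 1)) := by
    rw [Real.holderConjugate_iff]
    refine ⟨by linarith, ?_⟩
    field_simp
    ring
  have h1 := Real.young_inequality_of_nonneg ha (Real.rpow_nonneg hb (q - 1)) hconj
  have h2 : (b ^ (q - 1)) ^ (q / (q - 1)) = b ^ q := by
    rw [← Real.rpow_mul hb]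
    congr 1
    field_simp
  rw [h2] at h1
  have h3 : q * (a ^ q / q + b ^ q / (q / (q - 1))) = a ^ q + (q - 1) * b ^ q := by
    field_simp
  rw [← h3]
  exact mul_le_mul_of_nonneg_left h1 hq0.le

/-- the measure on the cylinder -/
noncomputable def cyl (d : ℕ) (T : ℝ) : Measure (ℝ × (Fin d → ℝ)) :=
  volume.restrict (Ioo 0 T ×ˢ Q d)

instance (d : ℕ) (T : ℝ) : IsFiniteMeasure (cyl d T) :=
  ⟨by rw [cyl, Measure.restrict_apply_univ]; exact (prod_finite (by simp)).lt_top⟩

theorem cyl_ae {d : ℕ} {T : ℝ} {P : ℝ × (Fin d → ℝ) → Prop} (h : ∀ z ∈ Ioo 0 T ×ˢ Q d, P z) :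
    ∀ᵐ z ∂(cyl d T), P z := by
  rw [cyl, ae_restrict_iff' (measurableSet_Ioo.prod (Q_meas d))]
  exact Eventually.of_forall h

/-- the truncated power -/
noncomputable def tp {d : ℕ} (w : ℝ × (Fin d → ℝ) → ℝ) (q : ℝ) (N : ℕ) (z : ℝ × (Fin d → ℝ)) : ℝ :=
  if |w z| ≤ N then |w z| ^ q else 0

/-- the truncated dual power -/
noncomputable def tg {d : ℕ} (w : ℝ × (Fin d → ℝ) → ℝ) (q : ℝ) (N : ℕ) (z : ℝ × (Fin d → ℝ)) : ℝ :=
  if |w z| ≤ N then (if 0 ≤ w z then 1 else -1) * |w z| ^ (q - 1) else 0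

theorem tp_meas {d : ℕ} {w : ℝ × (Fin d → ℝ) → ℝ} (hw : Measurable w) (q : ℝ) (N : ℕ) :
    Measurable (tp w q N) := by
  have h1 : Measurable fun z => |w z| := hw.abs
  exact Measurable.ite (measurableSet_le h1 measurable_const) (h1.pow_const q) measurable_const

theorem tg_meas {d : ℕ} {w : ℝ × (Fin d → ℝ) → ℝ} (hw : Measurable w) (q : ℝ) (N : ℕ) :
    Measurable (tg w q N) := by
  have h1 : Measurable fun z => |w z| := hw.abs
  exact Measurable.ite (measurableSet_le h1 measurable_const)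
    ((Measurable.ite (measurableSet_le measurable_const hw) measurable_const
      measurable_const).mul (h1.pow_const (q - 1))) measurable_const

theorem tp_nonneg {d : ℕ} (w : ℝ × (Fin d → ℝ) → ℝ) (q : ℝ) (N : ℕ) (z : ℝ × (Fin d → ℝ)) :
    0 ≤ tp w q N z := by
  unfold tp
  split_ifs
  · positivity
  · exact le_rfl

theorem tp_bdd {d : ℕ} (w : ℝ × (Fin d → ℝ) → ℝ) {q : ℝ} (hq : 0 ≤ q) (N : ℕ)
    (z : ℝ × (Fin d → ℝ)) : |tp w q N z| ≤ (N : ℝ) ^ q := by
  rw [abs_of_nonneg (tp_nonneg w q N z)]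
  unfold tp
  split_ifs with h
  · exact Real.rpow_le_rpow (abs_nonneg _) h hq
  · positivity

theorem tg_bdd {d : ℕ} (w : ℝ × (Fin d → ℝ) → ℝ) {q : ℝ} (hq : 1 ≤ q) (N : ℕ)
    (z : ℝ × (Fin d → ℝ)) : |tg w q N z| ≤ (N : ℝ) ^ (q - 1) := by
  unfold tg
  split_ifs with h h'
  · rw [one_mul, abs_of_nonneg (by positivity)]
    exact Real.rpow_le_rpow (abs_nonneg _) h (by linarith)
  · rw [neg_one_mul, abs_neg, abs_of_nonneg (by positivity)]
    exact Real.rpow_le_rpow (abs_nonneg _) h (by linarith)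
  · rw [abs_zero]
    positivity

theorem mul_tg {d : ℕ} (w : ℝ × (Fin d → ℝ) → ℝ) {q : ℝ} (hq : 2 ≤ q) (N : ℕ)
    (z : ℝ × (Fin d → ℝ)) : w z * tg w q N z = tp w q N z := by
  have h1 : |w z| * |w z| ^ (q - 1) = |w z| ^ q := by
    rcases (abs_nonneg (w z)).eq_or_lt with h | h
    · rw [← h, zero_mul, Real.zero_rpow (by linarith)]
    · rw [← Real.rpow_one_add' h.le (by linarith)]
      congr 1
      ring
  unfold tg tp
  split_ifs with h h'
  · rw [one_mul, ← h1, abs_of_nonneg h']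
  · rw [neg_one_mul, ← h1, mul_neg, ← neg_mul, abs_of_neg (not_le.1 h')]
  · rw [mul_zero]

theorem young' {d : ℕ} (w : ℝ × (Fin d → ℝ) → ℝ) {q : ℝ} (hq : 2 ≤ q) (N : ℕ)
    (z : ℝ × (Fin d → ℝ)) (u : ℝ) : q * (u * tg w q N z) ≤ |u| ^ q + (q - 1) * tp w q N z := by
  have hu := abs_nonneg u
  unfold tg tp
  split_ifs with h h'
  · refine le_trans ?_ (young hq hu (abs_nonneg (w z)))
    rw [one_mul]
    gcongr
    exact le_abs_self u
  · refine le_trans ?_ (young hq hu (abs_nonneg (w z)))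
    rw [neg_one_mul, mul_neg, ← neg_mul]
    gcongr
    exact neg_le_abs u
  · rw [mul_zero, mul_zero, mul_zero, add_zero]
    positivity

section lq

variable {d : ℕ} {T : ℝ} {q : ℝ} {F : ℕ → ℝ → (Fin d → ℝ) → ℝ} {C : ℝ}
  {w : ℝ × (Fin d → ℝ) → ℝ} {𝓕 : Ultrafilter ℕ}

theorem trunc_le (hq : 2 ≤ q) (hFm : ∀ K, BMP (F K))
    (hC : ∀ K t, 0 < t → t < T → ∫ x in Q d, |F K t x| ^ q ≤ C) (hwm : Measurable w)
    (hw : ∀ g : ℝ × (Fin d → ℝ) → ℝ, MemLp g 2 (cyl d T) →
      Tendsto (fun K => ∫ z, U (F K) z * g z ∂(cyl d T)) 𝓕 (𝓝 (∫ z, w z * g z ∂(cyl d T))))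
    {A : Set ℝ} (hA : MeasurableSet A) (hAT : A ⊆ Ioo 0 T) (N : ℕ) :
    ∫ z in A ×ˢ Q d, tp w q N z ≤ C * (volume A).toReal := by
  have hAf : volume A ≠ ⊤ := ne_top_of_le_ne_top (by simp) (measure_mono hAT)
  set S : Set (ℝ × (Fin d → ℝ)) := A ×ˢ univ with hS
  have hSm : MeasurableSet S := hA.prod MeasurableSet.univ
  have hcap : (Ioo 0 T ×ˢ Q d) ∩ S = A ×ˢ Q d := by
    rw [hS, prod_inter_prod, inter_univ, inter_eq_self_of_subset_right hAT]
  have hred : ∀ h : ℝ × (Fin d → ℝ) → ℝ, ∫ z, h z * S.indicator (tg w q N) z ∂(cyl d T) =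
      ∫ z in A ×ˢ Q d, h z * tg w q N z := by
    intro h
    have h1 : ∀ z, h z * S.indicator (tg w q N) z = S.indicator (fun z => h z * tg w q N z) z := by
      intro z
      by_cases hz : z ∈ S
      · rw [indicator_of_mem hz, indicator_of_mem hz]
      · rw [indicator_of_notMem hz, indicator_of_notMem hz, mul_zero]
    simp only [h1]
    rw [cyl, setIntegral_indicator hSm, hcap]
  have hg : MemLp (S.indicator (tg w q N)) 2 (cyl d T) := by
    refine MemLp.of_bound ((tg_meas hwm q N).indicator hSm).aestronglyMeasurable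
      ((N : ℝ) ^ (q - 1)) (Eventually.of_forall fun z => ?_)
    by_cases hz : z ∈ S
    · rw [indicator_of_mem hz]
      exact tg_bdd w (by linarith) N z
    · rw [indicator_of_notMem hz, norm_zero]
      positivity
  have hlim := hw _ hg
  simp only [hred] at hlim
  have hX : ∫ z in A ×ˢ Q d, w z * tg w q N z = ∫ z in A ×ˢ Q d, tp w q N z := by
    simp only [mul_tg w hq N]
  rw [hX] at hlim
  set X := ∫ z in A ×ˢ Q d, tp w q N z with hXdef
  have htp : IntegrableOn (tp w q N) (A ×ˢ Q d) :=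
    int_bdd hA hAf (tp_meas hwm q N) (fun z _ => tp_bdd w (by linarith) N z)
  have hK : ∀ K, ∫ z in A ×ˢ Q d, U (F K) z * tg w q N z ≤
      (C * (volume A).toReal + (q - 1) * X) / q := by
    intro K
    obtain ⟨B, hB⟩ := (hFm K).bdd
    have hB0 : 0 ≤ B := (abs_nonneg _).trans (hB 0 0)
    have hmeas : Measurable (U (F K)) := (hFm K).meas
    have hi1 : IntegrableOn (fun z => |U (F K) z| ^ q) (A ×ˢ Q d) := by
      refine int_bdd (B := B ^ q) hA hAf (hmeas.abs.pow_const q) fun z _ => ?_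
      rw [abs_of_nonneg (by positivity)]
      exact Real.rpow_le_rpow (abs_nonneg _) (hB z.1 z.2) (by linarith)
    have hi2 : IntegrableOn (fun z => U (F K) z * tg w q N z) (A ×ˢ Q d) := by
      refine int_bdd (B := B * (N : ℝ) ^ (q - 1)) hA hAf (hmeas.mul (tg_meas hwm q N)) fun z _ => ?_
      rw [abs_mul]
      exact mul_le_mul (hB z.1 z.2) (tg_bdd w (by linarith) N z) (abs_nonneg _) hB0
    have h1 : q * ∫ z in A ×ˢ Q d, U (F K) z * tg w q N z ≤
        (∫ z in A ×ˢ Q d, |U (F K) z| ^ q) + (q - 1) * X := by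
      rw [← integral_const_mul, hXdef, ← integral_const_mul, ← integral_add hi1 (htp.const_mul _)]
      refine integral_mono (hi2.const_mul _) (hi1.add (htp.const_mul _)) fun z => ?_
      exact young' w hq N z _
    have h2 : ∫ z in A ×ˢ Q d, |U (F K) z| ^ q ≤ C * (volume A).toReal := by
      rw [← iter_eq hi1]
      have h3 : Integrable (fun t => ∫ x in Q d, |U (F K) (t, x)| ^ q) (volume.restrict A) := by
        have h4 : Integrable (fun z : ℝ × (Fin d → ℝ) => |U (F K) z| ^ q)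
            ((volume.restrict A).prod (volume.restrict (Q d))) := by
          rw [Measure.prod_restrict, ← Measure.volume_eq_prod]
          exact hi1
        exact h4.integral_prod_left
      have h5 : ∫ t in A, ∫ x in Q d, |U (F K) (t, x)| ^ q ≤ ∫ _t in A, C := by
        refine setIntegral_mono_on h3 (integrableOn_const hAf) hA fun t ht => ?_
        exact hC K t (hAT ht).1 (hAT ht).2
      refine h5.trans (le_of_eq ?_)
      rw [setIntegral_const, smul_eq_mul, mul_comm]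
      rfl
    rw [le_div_iff₀ (by linarith)]
    linarith
  have h6 : X ≤ (C * (volume A).toReal + (q - 1) * X) / q := le_of_tendsto' hlim hK
  rw [le_div_iff₀ (by linarith)] at h6
  linarith

theorem lq_bound (hT : 0 < T) (hq : 2 ≤ q) (hFm : ∀ K, BMP (F K))
    (hC : ∀ K t, 0 < t → t < T → ∫ x in Q d, |F K t x| ^ q ≤ C) (hwm : Measurable w)
    (hw : ∀ g : ℝ × (Fin d → ℝ) → ℝ, MemLp g 2 (cyl d T) →
      Tendsto (fun K => ∫ z, U (F K) z * g z ∂(cyl d T)) 𝓕 (𝓝 (∫ z, w z * g z ∂(cyl d T)))) :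
    ∀ᵐ t ∂(volume.restrict (Ioo 0 T)), ∫⁻ x in Q d, ‖w (t, x)‖ₑ ^ q ≤ ENNReal.ofReal C := by
  have hC0 : 0 ≤ C := by
    refine le_trans ?_ (hC 0 (T / 2) (by linarith) (by linarith))
    exact integral_nonneg fun x => by positivity
  have hwq : Measurable fun z => ‖w z‖ₑ ^ q := hwm.enorm.pow_const q
  have key : ∀ A : Set ℝ, MeasurableSet A → A ⊆ Ioo 0 T →
      ∫⁻ z in A ×ˢ Q d, ‖w z‖ₑ ^ q ≤ ENNReal.ofReal (C * (volume A).toReal) := by
    intro A hA hAT
    have hAf : volume A ≠ ⊤ := ne_top_of_le_ne_top (by simp) (measure_mono hAT)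
    have h1 : Tendsto (fun N : ℕ => ∫⁻ z in A ×ˢ Q d, ENNReal.ofReal (tp w q N z)) atTop
        (𝓝 (∫⁻ z in A ×ˢ Q d, ‖w z‖ₑ ^ q)) := by
      refine lintegral_tendsto_of_tendsto_of_monotone
        (fun N => (tp_meas hwm q N).ennreal_ofReal.aemeasurable) ?_ ?_
      · refine Eventually.of_forall fun z N M hNM => ENNReal.ofReal_le_ofReal ?_
        unfold tp
        split_ifs with h h'
        · exact le_rfl
        · exact absurd (h.trans (by exact_mod_cast hNM)) h'
        · positivity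
        · exact le_rfl
      · refine Eventually.of_forall fun z => ?_
        refine tendsto_const_nhds.congr' ?_
        obtain ⟨N0, hN0⟩ := exists_nat_ge |w z|
        filter_upwards [eventually_ge_atTop N0] with N hN
        unfold tp
        rw [if_pos (hN0.trans (by exact_mod_cast hN)), ← ENNReal.ofReal_rpow_of_nonneg
          (abs_nonneg _) (by linarith), ← Real.norm_eq_abs, ofReal_norm]
    refine le_of_tendsto' h1 fun N => ?_
    have htp : IntegrableOn (tp w q N) (A ×ˢ Q d) :=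
      int_bdd hA hAf (tp_meas hwm q N) (fun z _ => tp_bdd w (by linarith) N z)
    rw [← ofReal_integral_eq_lintegral_ofReal htp (Eventually.of_forall (tp_nonneg w q N))]
    exact ENNReal.ofReal_le_ofReal (trunc_le hq hFm hC hwm hw hA hAT N)
  have hmf : Measurable fun t => ∫⁻ x in Q d, ‖w (t, x)‖ₑ ^ q := hwq.lintegral_prod_right'
  refine ae_le_of_forall_setLIntegral_le_of_sigmaFinite hmf fun s hs _ => ?_
  rw [Measure.restrict_restrict hs]
  have h1 := key (s ∩ Ioo 0 T) (hs.inter measurableSet_Ioo) inter_subset_right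
  have h2 : volume (s ∩ Ioo 0 T) ≠ ⊤ :=
    ne_top_of_le_ne_top (by simp) (measure_mono inter_subset_right)
  have h3 : ∫⁻ t in s ∩ Ioo 0 T, ∫⁻ x in Q d, ‖w (t, x)‖ₑ ^ q =
      ∫⁻ z in (s ∩ Ioo 0 T) ×ˢ Q d, ‖w z‖ₑ ^ q := by
    rw [Measure.volume_eq_prod, ← Measure.prod_restrict, lintegral_prod _ hwq.aemeasurable]
  rw [h3]
  refine h1.trans (le_of_eq ?_)
  rw [setLIntegral_const, ENNReal.ofReal_mul hC0, ENNReal.ofReal_toReal h2]

end lq

/-- the drift is square integrable -/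
theorem drift_sq {d : ℕ} {T : ℝ} {p : ℝ≥0∞} {b : ℝ → (Fin d → ℝ) → (Fin d → ℝ)}
    (hp : 2 ≤ p) (hb : Drift d T p b) : ∫⁻ t in Ioo 0 T, ∫⁻ x in Q d, ‖b t x‖ₑ ^ 2 < ⊤ := by
  have : IsProbabilityMeasure (volume.restrict (Q d)) :=
    ⟨by rw [Measure.restrict_apply_univ, Q_vol]⟩
  refine lt_of_le_of_lt (lintegral_mono fun t => ?_) hb.norm
  have hm : AEStronglyMeasurable (b t) (volume.restrict (Q d)) := by
    have h1 : Measurable (b t) := hb.meas.comp measurable_prodMk_left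
    exact h1.aestronglyMeasurable
  have h2 := eLpNorm_le_eLpNorm_of_exponent_le (μ := volume.restrict (Q d)) hp hm
  have h3 : ∫⁻ x in Q d, ‖b t x‖ₑ ^ 2 = (eLpNorm (b t) 2 (volume.restrict (Q d))) ^ 2 := by
    rw [eLpNorm_eq_lintegral_rpow_enorm_toReal (by norm_num) (by norm_num)]
    simp only [ENNReal.toReal_ofNat, ENNReal.rpow_ofNat]
    rw [← ENNReal.rpow_natCast, ← ENNReal.rpow_mul]
    norm_num
  rw [h3]
  gcongr

/-- the coordinates of a field whose norm is square integrable -/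
theorem memLp_coord {d : ℕ} {T : ℝ} {b : ℝ → (Fin d → ℝ) → (Fin d → ℝ)} (hm : Measurable (U b))
    (hb : ∫⁻ t in Ioo 0 T, ∫⁻ x in Q d, ‖b t x‖ₑ ^ 2 < ⊤) :
    MemLp (fun z : ℝ × (Fin d → ℝ) => ‖b z.1 z.2‖) 2 (cyl d T) ∧
    ∫ z, ‖b z.1 z.2‖ ^ 2 ∂(cyl d T) =
      (∫⁻ t in Ioo 0 T, ∫⁻ x in Q d, ‖b t x‖ₑ ^ 2).toReal := by
  have hm' : Measurable fun z : ℝ × (Fin d → ℝ) => ‖b z.1 z.2‖ := hm.norm
  have h1 : ∫⁻ z, ‖(‖b z.1 z.2‖)‖ₑ ^ 2 ∂(cyl d T) = ∫⁻ t in Ioo 0 T, ∫⁻ x in Q d, ‖b t x‖ₑ ^ 2 := by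
    have h2 : Measurable fun z : ℝ × (Fin d → ℝ) => ‖b z.1 z.2‖ₑ ^ 2 := hm.enorm.pow_const 2
    rw [cyl, Measure.volume_eq_prod, ← Measure.prod_restrict]
    simp only [enorm_norm]
    rw [lintegral_prod _ h2.aemeasurable]
  have h3 : MemLp (fun z : ℝ × (Fin d → ℝ) => ‖b z.1 z.2‖) 2 (cyl d T) := by
    refine ⟨hm'.aestronglyMeasurable, ?_⟩
    rw [eLpNorm_lt_top_iff_lintegral_rpow_enorm_lt_top (by norm_num) (by norm_num)]
    simp only [ENNReal.toReal_ofNat, ENNReal.rpow_ofNat]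
    rw [h1]
    exact hb
  refine ⟨h3, ?_⟩
  rw [← h1, integral_eq_lintegral_of_nonneg_ae (Eventually.of_forall fun z => by positivity)
    (hm'.pow_const 2).aestronglyMeasurable]
  congr 1
  refine lintegral_congr fun z => ?_
  rw [enorm_norm, ← ofReal_norm, ENNReal.ofReal_pow (norm_nonneg _)]

/-- A12 (LIMIT). -/
theorem main (hFT : S_FTEST) (hFR : S_FREG) : S_LIMIT := by
  intro d T p q b bK fK uK vK et C c hT hp hq hb hsol hbK hfK hC het hc hlow
  have hreg := fun K => hFR d T (bK K) (fK K) (uK K) (vK K) hT (hsol K)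
  have hu : ∀ K, BMP (uK K) := fun K => (hreg K).1
  have hI : MeasurableSet (Ioo (0 : ℝ) T) := measurableSet_Ioo
  have hIf : volume (Ioo (0 : ℝ) T) ≠ ⊤ := by simp
  -- the weak limit
  have hmem : ∀ K, MemLp (U (uK K)) 2 (cyl d T) := by
    intro K
    obtain ⟨B, hB⟩ := (hu K).bdd
    exact MemLp.of_bound (hu K).meas.aestronglyMeasurable B
      (Eventually.of_forall fun z => hB z.1 z.2)
  have hM : ∀ K, ∫ z, U (uK K) z ^ 2 ∂(cyl d T) ≤ (1 + C) * T := by
    intro K
    obtain ⟨B, hB⟩ := (hu K).bdd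
    have hmeas : Measurable (U (uK K)) := (hu K).meas
    have hi1 : IntegrableOn (fun z => U (uK K) z ^ 2) (Ioo 0 T ×ˢ Q d) := by
      refine int_bdd (B := B ^ 2) hI hIf (hmeas.pow_const 2) fun z _ => ?_
      rw [abs_pow]
      exact pow_le_pow_left₀ (abs_nonneg _) (hB z.1 z.2) 2
    have hi2 : IntegrableOn (fun z => 1 + |U (uK K) z| ^ q) (Ioo 0 T ×ˢ Q d) := by
      refine int_bdd (B := 1 + B ^ q) hI hIf ((hmeas.abs.pow_const q).const_add 1) fun z _ => ?_
      rw [abs_of_nonneg (by positivity)]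
      have := Real.rpow_le_rpow (abs_nonneg _) (hB z.1 z.2) (by linarith : 0 ≤ q)
      exact add_le_add_right this 1
    have h1 : ∫ z, U (uK K) z ^ 2 ∂(cyl d T) ≤ ∫ z, (1 + |U (uK K) z| ^ q) ∂(cyl d T) := by
      refine integral_mono hi1 hi2 fun z => ?_
      simp only
      rw [← sq_abs]
      rcases le_total |U (uK K) z| 1 with h | h
      · have h2 : |U (uK K) z| ^ 2 ≤ 1 := pow_le_one₀ (abs_nonneg _) h
        have h3 : 0 ≤ |U (uK K) z| ^ q := by positivity
        linarith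
      · have h2 : |U (uK K) z| ^ (2 : ℝ) ≤ |U (uK K) z| ^ q :=
          Real.rpow_le_rpow_of_exponent_le h hq
        rw [Real.rpow_two] at h2
        linarith
    refine h1.trans ?_
    rw [cyl, ← iter_eq hi2]
    have h3 : Integrable (fun t => ∫ x in Q d, (1 + |U (uK K) (t, x)| ^ q))
        (volume.restrict (Ioo 0 T)) := by
      have h4 : Integrable (fun z : ℝ × (Fin d → ℝ) => 1 + |U (uK K) z| ^ q)
          ((volume.restrict (Ioo 0 T)).prod (volume.restrict (Q d))) := by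
        rw [Measure.prod_restrict, ← Measure.volume_eq_prod]
        exact hi2
      exact h4.integral_prod_left
    have h5 : ∫ t in Ioo 0 T, ∫ x in Q d, (1 + |U (uK K) (t, x)| ^ q) ≤ ∫ _t in Ioo 0 T, (1 + C) := by
      refine setIntegral_mono_on h3 (integrableOn_const hIf) hI fun t ht => ?_
      have hmt : Measurable (uK K t) := hmeas.comp measurable_prodMk_left
      have h6 : Integrable (fun x => |uK K t x| ^ q) (volume.restrict (Q d)) := by
        refine Integrable.of_bound ((hmt.abs.pow_const q).aestronglyMeasurable) (B ^ q)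
          (Eventually.of_forall fun x => ?_)
        rw [Real.norm_eq_abs, abs_of_nonneg (by positivity)]
        exact Real.rpow_le_rpow (abs_nonneg _) (hB t x) (by linarith)
      have h7 : ∫ x in Q d, (1 + |U (uK K) (t, x)| ^ q) = 1 + ∫ x in Q d, |uK K t x| ^ q := by
        change ∫ x in Q d, (1 + |uK K t x| ^ q) = _
        rw [integral_add (integrable_const _) h6, integral_const]
        simp [Measure.real, Q_vol]
      rw [h7]
      exact add_le_add_right (hC K t ht.1 ht.2) 1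
    refine h5.trans (le_of_eq ?_)
    rw [setIntegral_const, smul_eq_mul, mul_comm]
    simp [Measure.real, hT.le]
  obtain ⟨w, hwm, hwp, hw⟩ := weak_limit (cyl d T) (fun K => U (uK K)) hmem _ hM
    (Filter.hyperfilter ℕ)
  have hle : ((Filter.hyperfilter ℕ : Ultrafilter ℕ) : Filter ℕ) ≤ atTop := by
    rw [← Nat.cofinite_eq_atTop]
    exact Filter.hyperfilter_le_cofinite
  have hlq := lq_bound hT hq hu hC hwm hw
  -- the periodic extension
  let u : ℝ → (Fin d → ℝ) → ℝ := fun t x => w (t, fr x)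
  have huw : ∀ z ∈ Ioo 0 T ×ˢ Q d, u z.1 z.2 = w z := by
    rintro ⟨t, x⟩ ⟨_, hx⟩
    change w (t, fr x) = w (t, x)
    rw [fr_Q hx]
  have huwx : ∀ t, ∀ x ∈ Q d, u t x = w (t, x) := by
    intro t x hx
    change w (t, fr x) = w (t, x)
    rw [fr_Q hx]
  have hum : Measurable (U u) := by
    have h1 : Measurable fun z : ℝ × (Fin d → ℝ) => (z.1, fr z.2) :=
      measurable_fst.prodMk ((fr_meas d).comp measurable_snd)
    exact hwm.comp h1
  -- integrals against square integrable functions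
  have hint : ∀ g : ℝ × (Fin d → ℝ) → ℝ, MemLp g 2 (cyl d T) →
      ∫ t in Ioo 0 T, ∫ x in Q d, u t x * g (t, x) = ∫ z, w z * g z ∂(cyl d T) := by
    intro g hg
    have h1 : IntegrableOn (fun z => w z * g z) (Ioo 0 T ×ˢ Q d) := hwp.integrable_mul hg
    rw [cyl, ← iter_eq h1]
    refine setIntegral_congr_fun hI fun t _ => ?_
    refine setIntegral_congr_fun (Q_meas d) fun x hx => ?_
    change u t x * g (t, x) = w (t, x) * g (t, x)
    rw [huwx t x hx]
  refine ⟨u, ⟨hum, ?_, ?_, measurable_const, fun _ _ => rfl, ?_, ?_⟩, ?_⟩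
  · intro t x k
    change w (t, fr _) = w (t, fr x)
    rw [fr_per]
  · refine ⟨(((ENNReal.ofReal C) ^ (1 / q)).toNNReal), ?_⟩
    filter_upwards [hlq] with t ht
    have hq0 : ENNReal.ofReal q ≠ 0 := by
      rw [ne_eq, ENNReal.ofReal_eq_zero]
      linarith
    have h1 : ∫⁻ x in Q d, ‖u t x‖ₑ ^ q = ∫⁻ x in Q d, ‖w (t, x)‖ₑ ^ q := by
      refine setLIntegral_congr_fun (Q_meas d) fun x hx => ?_
      change ‖u t x‖ₑ ^ q = ‖w (t, x)‖ₑ ^ q
      rw [huwx t x hx]
    rw [eLpNorm_eq_lintegral_rpow_enorm_toReal hq0 ENNReal.ofReal_ne_top,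
      ENNReal.toReal_ofReal (by linarith), h1, ENNReal.coe_toNNReal (by
        exact ENNReal.rpow_ne_top_of_nonneg (by positivity) ENNReal.ofReal_ne_top)]
    exact ENNReal.rpow_le_rpow ht (by positivity)
  · rw [eLpNorm_zero']
    exact ENNReal.zero_lt_top
  · -- the equation
    intro g hg
    have hG := hfK g hg
    obtain ⟨hgs, S, hST, hgS⟩ := hg
    have hsm := hgs.smooth
    have hcpd : ∀ i, Continuous (U fun t => pd i (g t)) := fun i =>
      (Pool.Agent.Helper89.ND.smooth_pd hsm i).continuous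
    have hcdt : Continuous (U (dt g)) := (Pool.Agent.Helper75.ND.smooth_dt hsm).continuous
    have hclap : Continuous (fun z : ℝ × (Fin d → ℝ) => lap (g z.1) z.2) :=
      (Pool.Agent.Helper75.ND.smooth_lap hsm).continuous
    have hcg : Continuous (U g) := hsm.continuous
    -- one bound for everything
    obtain ⟨B1, hB1, hbd1⟩ := bdd_cyl (d := d) T hcdt
    obtain ⟨B2, hB2, hbd2⟩ := bdd_cyl (d := d) T hclap
    obtain ⟨B3, hB3, hbd3⟩ := bdd_cyl (d := d) T hcg
    have hpd : ∃ B4 : ℝ, 0 ≤ B4 ∧ ∀ i, ∀ z ∈ Ioo 0 T ×ˢ Q d, |pd i (g z.1) z.2| ≤ B4 := by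
      choose Bi hBi hbdi using fun i => bdd_cyl (d := d) T (hcpd i)
      refine ⟨∑ i, Bi i, Finset.sum_nonneg fun i _ => hBi i, fun i z hz => ?_⟩
      exact (hbdi i z hz).trans (Finset.single_le_sum (fun j _ => hBi j) (Finset.mem_univ i))
    obtain ⟨B4, hB4, hbd4⟩ := hpd
    have hbsq := drift_sq hp hb
    obtain ⟨hbn, _⟩ := memLp_coord hb.meas hbsq
    have hbi : ∀ i, MemLp (fun z : ℝ × (Fin d → ℝ) => b z.1 z.2 i) 2 (cyl d T) := by
      intro i
      have hm : Measurable fun z : ℝ × (Fin d → ℝ) => b z.1 z.2 i :=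
        (measurable_pi_apply i).comp hb.meas
      refine hbn.mono hm.aestronglyMeasurable (Eventually.of_forall fun z => ?_)
      rw [norm_norm]
      exact norm_le_pi_norm (b z.1 z.2) i
    have hbpd : ∀ i, MemLp (fun z : ℝ × (Fin d → ℝ) => b z.1 z.2 i * pd i (g z.1) z.2) 2
        (cyl d T) := by
      intro i
      refine MemLp.of_le_mul (c := B4) (hbi i) ?_ ?_
      · exact (((measurable_pi_apply i).comp hb.meas).mul (hcpd i).measurable).aestronglyMeasurable
      · refine cyl_ae fun z hz => ?_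
        rw [norm_mul, mul_comm]
        exact mul_le_mul_of_nonneg_right (hbd4 i z hz) (norm_nonneg _)
    have hdtm : MemLp (U (dt g)) 2 (cyl d T) :=
      MemLp.of_bound hcdt.aestronglyMeasurable B1 (cyl_ae fun z hz => hbd1 z hz)
    have hlapm : MemLp (fun z : ℝ × (Fin d → ℝ) => lap (g z.1) z.2) 2 (cyl d T) :=
      MemLp.of_bound hclap.aestronglyMeasurable B2 (cyl_ae fun z hz => hbd2 z hz)
    let ψ : ℝ × (Fin d → ℝ) → ℝ := fun z =>
      dt g z.1 z.2 + (∑ i, b z.1 z.2 i * pd i (g z.1) z.2) + lap (g z.1) z.2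
    have hψ : MemLp ψ 2 (cyl d T) :=
      (hdtm.add (memLp_finsetSum _ fun i _ => hbpd i)).add hlapm
    have h0 : ∫ x in Q d, (fun _ : Fin d → ℝ => (0 : ℝ)) x * g 0 x = 0 := by simp
    rw [h0, add_zero]
    have h1 := hint ψ hψ
    change ∫ t in Ioo 0 T, ∫ x in Q d, u t x * ψ (t, x) = 0
    rw [h1]
    have hlim := hw ψ hψ
    -- the approximate equations
    let E : ℕ → ℝ := fun K => ∫ z, U (uK K) z *
      (∑ i, (bK K z.1 z.2 i - b z.1 z.2 i) * pd i (g z.1) z.2) ∂(cyl d T)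
    let G : ℕ → ℝ := fun K => ∫ t in Ioo 0 T, ∫ x in Q d, fK K t x * g t x
    have heq : ∀ K, ∫ z, U (uK K) z * ψ z ∂(cyl d T) = - E K - G K := by
      intro K
      have hd := (hsol K).dat
      obtain ⟨Bu, hBu⟩ := (hu K).bdd
      obtain ⟨Bb, hBb⟩ := hd.bdd
      have hum' : Measurable (U (uK K)) := (hu K).meas
      have h2 := hFT d T (bK K) (fK K) (uK K) (vK K) hT (hsol K) g (by
        exact_mod_cast (contDiff_infty.1 hsm 2)) hgs.per 0 T le_rfl hT.le le_rfl
      have h3 : ∫ x in Q d, uK K T x * g T x = 0 := by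
        simp only [hgS T hST.le, mul_zero, integral_zero]
      have h4 : ∫ x in Q d, uK K 0 x * g 0 x = 0 := by
        simp only [(hreg K).2.1 0 le_rfl, zero_mul, integral_zero]
      rw [h3, h4, zero_add, integral_Ioc_eq_integral_Ioo] at h2
      have hbKi : ∀ i, MemLp (fun z : ℝ × (Fin d → ℝ) =>
          (bK K z.1 z.2 i - b z.1 z.2 i) * pd i (g z.1) z.2) 2 (cyl d T) := by
        intro i
        have hmK : Measurable fun z : ℝ × (Fin d → ℝ) => bK K z.1 z.2 i :=
          (measurable_pi_apply i).comp hd.mb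
        have hKi : MemLp (fun z : ℝ × (Fin d → ℝ) => bK K z.1 z.2 i) 2 (cyl d T) :=
          MemLp.of_bound hmK.aestronglyMeasurable Bb
            (Eventually.of_forall fun z => (hBb z.1 z.2).2 i)
        have hs := hKi.sub (hbi i)
        refine MemLp.of_le_mul (c := B4) hs ?_ ?_
        · exact (hs.aestronglyMeasurable.mul (hcpd i).aestronglyMeasurable)
        · refine cyl_ae fun z hz => ?_
          rw [norm_mul, mul_comm]
          exact mul_le_mul_of_nonneg_right (hbd4 i z hz) (norm_nonneg _)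
      have hiψ : Integrable (fun z => U (uK K) z * ψ z) (cyl d T) := (hmem K).integrable_mul hψ
      have hiE : Integrable (fun z => U (uK K) z *
          (∑ i, (bK K z.1 z.2 i - b z.1 z.2 i) * pd i (g z.1) z.2)) (cyl d T) :=
        (hmem K).integrable_mul (memLp_finsetSum _ fun i _ => hbKi i)
      have hfm : MemLp (U (fK K)) 2 (cyl d T) :=
        MemLp.of_bound hd.mf.aestronglyMeasurable Bb (Eventually.of_forall fun z => (hBb z.1 z.2).1)
      have hgm : MemLp (U g) 2 (cyl d T) :=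
        MemLp.of_bound hcg.aestronglyMeasurable B3 (cyl_ae fun z hz => hbd3 z hz)
      have hiG : Integrable (fun z => U (fK K) z * U g z) (cyl d T) := hfm.integrable_mul hgm
      have hGK : G K = ∫ z, U (fK K) z * U g z ∂(cyl d T) := by
        rw [cyl, ← iter_eq hiG]
        rfl
      have hpt : ∀ z : ℝ × (Fin d → ℝ), uK K z.1 z.2 * (dt g z.1 z.2 + (∑ i, bK K z.1 z.2 i *
          pd i (g z.1) z.2) + lap (g z.1) z.2) + fK K z.1 z.2 * g z.1 z.2 =
          U (uK K) z * ψ z + U (uK K) z *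
            (∑ i, (bK K z.1 z.2 i - b z.1 z.2 i) * pd i (g z.1) z.2) + U (fK K) z * U g z := by
        intro z
        change _ = uK K z.1 z.2 * (dt g z.1 z.2 + (∑ i, b z.1 z.2 i * pd i (g z.1) z.2) +
          lap (g z.1) z.2) + uK K z.1 z.2 *
            (∑ i, (bK K z.1 z.2 i - b z.1 z.2 i) * pd i (g z.1) z.2) + fK K z.1 z.2 * g z.1 z.2
        simp only [sub_mul, Finset.sum_sub_distrib]
        ring
      have hisum : Integrable (fun z => U (uK K) z * ψ z + U (uK K) z *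
            (∑ i, (bK K z.1 z.2 i - b z.1 z.2 i) * pd i (g z.1) z.2) + U (fK K) z * U g z)
            (cyl d T) := (hiψ.add hiE).add hiG
      have h5 : ∫ t in Ioo 0 T, ∫ x in Q d, (uK K t x * (dt g t x + (∑ i, bK K t x i *
          pd i (g t) x) + lap (g t) x) + fK K t x * g t x) =
          ∫ z, (U (uK K) z * ψ z + U (uK K) z *
            (∑ i, (bK K z.1 z.2 i - b z.1 z.2 i) * pd i (g z.1) z.2) + U (fK K) z * U g z)
            ∂(cyl d T) := by
        rw [cyl, ← iter_eq hisum]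
        refine setIntegral_congr_fun hI fun t _ => ?_
        refine setIntegral_congr_fun (Q_meas d) fun x _ => ?_
        exact hpt (t, x)
      have e1 := integral_add (μ := cyl d T) (f := fun z => U (uK K) z * ψ z + U (uK K) z *
            (∑ i, (bK K z.1 z.2 i - b z.1 z.2 i) * pd i (g z.1) z.2))
            (g := fun z => U (fK K) z * U g z) (hiψ.add hiE) hiG
      have e2 := integral_add (μ := cyl d T) (f := fun z => U (uK K) z * ψ z)
            (g := fun z => U (uK K) z *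
            (∑ i, (bK K z.1 z.2 i - b z.1 z.2 i) * pd i (g z.1) z.2)) hiψ hiE
      rw [h5, e1, e2, ← hGK] at h2
      change 0 = _ + E K + G K at h2
      linarith
    have hEbd : ∀ᶠ K in atTop, ‖E K‖ ≤ Real.sqrt ((1 + C) * T) * ((d : ℝ) * B4 *
        Real.sqrt (∫⁻ t in Ioo 0 T, ∫⁻ x in Q d, ‖bK K t x - b t x‖ₑ ^ 2).toReal) := by
      filter_upwards [hbK.eventually_lt_const ENNReal.zero_lt_top] with K hK
      have hd := (hsol K).dat
      have hmd : Measurable (U fun t x => bK K t x - b t x) := hd.mb.sub hb.meas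
      obtain ⟨hn1, hn2⟩ := memLp_coord (b := fun t x => bK K t x - b t x) hmd hK
      have hpt : ∀ z ∈ Ioo 0 T ×ˢ Q d,
          |∑ i, (bK K z.1 z.2 i - b z.1 z.2 i) * pd i (g z.1) z.2| ≤
          (d : ℝ) * B4 * ‖bK K z.1 z.2 - b z.1 z.2‖ := by
        intro z hz
        refine (Finset.abs_sum_le_sum_abs _ _).trans ?_
        have h6 : ∀ i ∈ (Finset.univ : Finset (Fin d)),
            |(bK K z.1 z.2 i - b z.1 z.2 i) * pd i (g z.1) z.2| ≤
            B4 * ‖bK K z.1 z.2 - b z.1 z.2‖ := by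
          intro i _
          rw [abs_mul, mul_comm]
          exact mul_le_mul (hbd4 i z hz) (norm_le_pi_norm (bK K z.1 z.2 - b z.1 z.2) i)
            (abs_nonneg _) hB4
        refine (Finset.sum_le_card_nsmul _ _ _ h6).trans (le_of_eq ?_)
        rw [Finset.card_univ, Fintype.card_fin, nsmul_eq_mul, mul_assoc]
      have hmeas : Measurable fun z : ℝ × (Fin d → ℝ) =>
          ∑ i, (bK K z.1 z.2 i - b z.1 z.2 i) * pd i (g z.1) z.2 := by
        refine Finset.measurable_sum _ fun i _ => ?_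
        exact (((measurable_pi_apply i).comp hd.mb).sub
          ((measurable_pi_apply i).comp hb.meas)).mul (hcpd i).measurable
      have hsm' : MemLp (fun z : ℝ × (Fin d → ℝ) =>
          ∑ i, (bK K z.1 z.2 i - b z.1 z.2 i) * pd i (g z.1) z.2) 2 (cyl d T) := by
        refine MemLp.of_le_mul (c := (d : ℝ) * B4) hn1 hmeas.aestronglyMeasurable ?_
        refine cyl_ae fun z hz => ?_
        rw [norm_norm]
        exact hpt z hz
      have hcs := cs (hmem K).integrable_sq hsm'.integrable_sq ((hmem K).integrable_mul hsm')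
      refine hcs.trans ?_
      refine mul_le_mul (Real.sqrt_le_sqrt (hM K)) ?_ (Real.sqrt_nonneg _) (Real.sqrt_nonneg _)
      rw [← hn2]
      have h7 : ∫ z, (∑ i, (bK K z.1 z.2 i - b z.1 z.2 i) * pd i (g z.1) z.2) ^ 2 ∂(cyl d T) ≤
          ((d : ℝ) * B4) ^ 2 * ∫ z, ‖bK K z.1 z.2 - b z.1 z.2‖ ^ 2 ∂(cyl d T) := by
        rw [← integral_const_mul]
        refine integral_mono_ae hsm'.integrable_sq (hn1.integrable_sq.const_mul _) ?_
        refine cyl_ae fun z hz => ?_
        simp only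
        rw [← mul_pow, ← sq_abs]
        exact pow_le_pow_left₀ (abs_nonneg _) (hpt z hz) 2
      refine (Real.sqrt_le_sqrt h7).trans (le_of_eq ?_)
      rw [Real.sqrt_mul (by positivity), Real.sqrt_sq (by positivity)]
    have hE : Tendsto E atTop (𝓝 0) := by
      refine squeeze_zero_norm' hEbd ?_
      have h8 : Tendsto (fun K => (∫⁻ t in Ioo 0 T, ∫⁻ x in Q d,
          ‖bK K t x - b t x‖ₑ ^ 2).toReal) atTop (𝓝 0) := by
        have h9 := (ENNReal.tendsto_toReal ENNReal.zero_ne_top).comp hbK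
        rw [ENNReal.toReal_zero] at h9
        exact h9
      have h10 := ((Real.continuous_sqrt.tendsto 0).comp h8).const_mul ((d : ℝ) * B4)
      have h11 := h10.const_mul (Real.sqrt ((1 + C) * T))
      rw [Real.sqrt_zero, mul_zero, mul_zero] at h11
      exact h11
    have hlim2 : Tendsto (fun K => - E K - G K) (Filter.hyperfilter ℕ : Filter ℕ) (𝓝 (-0 - 0)) :=
      ((hE.neg).sub hG).mono_left hle
    have hlim3 := hlim.congr heq
    have h12 := tendsto_nhds_unique hlim3 hlim2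
    rw [h12]
    simp
  · -- the lower bound
    obtain ⟨Be, hBe⟩ := het.bdd
    have hetm : MemLp (U et) 2 (cyl d T) :=
      MemLp.of_bound het.meas.aestronglyMeasurable Be (Eventually.of_forall fun z => hBe z.1 z.2)
    have h1 := hint (U et) hetm
    change c ≤ ∫ t in Ioo 0 T, ∫ x in Q d, u t x * U et (t, x)
    rw [h1]
    refine ge_of_tendsto (hw (U et) hetm) (hle ?_)
    filter_upwards [hlow] with K hK
    refine hK.trans (le_of_eq ?_)
    have h2 : IntegrableOn (fun z => U (uK K) z * U et z) (Ioo 0 T ×ˢ Q d) :=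
      (hmem K).integrable_mul hetm
    rw [cyl, ← iter_eq h2]
    rfl

end Pool.Agent.Helper4.ND.LIMIT
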